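import Pool.Agent.Lib.Pa7c826h.FinH
import Pool.Agent.Lib.Pa7c826h.GUnion
import Pool.Agent.Lib.Pa7c826h.GHard
import Pool.Agent.Lib.Pa7c826h.BFinal

/-!
Problem MP_a7c826_lc: the exact additive gap between the degrees of the two sides of a bipartite
graph at which approximate counting of independent sets becomes easy.

The definitions `BGraph`, `inCode`, `outVal`, `Good`, `HasFPTAS`, `HasFPRAS` are in
`Pool/Agent/Lib/Pa7c826/Scheme.lean`, the definitions `Band`, `MaxDeg`, `Unbalanced`, `thr`,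
`Gap`, `GapAt` in `Pool/Agent/Lib/Pa7c826h/Class.lean`.
-/

open Pool.Agent.Lib.Pa7c826 Pool.Agent.Lib.Pa7c826h

namespace Pool.Agent.Results.MP_a7c826_lc.GapThreshold

/-- **Result.** Consider bipartite graphs with `n` vertices, all degrees on one side at most `D`,
all degrees on the other side at least `D + g` and at most `Δ`. Counting independent sets

1. has a deterministic fully polynomial approximation scheme for fixed `D`, `Δ` if
   `g ≥ log₂ D + 6`,
2. is as hard, for fixed `D`, `h` with `D ≥ k (2 ^ (h + 3) + 8)` and `Δ = D + h + k + 2`, as for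
   all bipartite graphs of maximum degree `k` if only `g ≥ h` is assumed (`k ≥ 2`, `h ≥ 3`);
3. has a deterministic fully polynomial approximation scheme for arbitrary `D`, `Δ`, `n` if
   `g ≥ log₂ D + ε log₂ (D Δ) + 7`, and if `g ≥ log₂ min (D, n / D) + ε log₂ n`;
4. has a (randomised) scheme, if `D = n ^ (p / q)`, `0 < p < q`, and only
   `g ≥ log₂ min (D, n / D) - ε log₂ n` is assumed, if and only if one exists for all bipartite
   graphs. -/
theorem result :
    (∀ D Δ : ℕ, HasFPTAS (Band D Δ (D + Real.logb 2 D + 6))) ∧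
      (∀ k h D : ℕ, 2 ≤ k → 3 ≤ h → k * (2 ^ (h + 3) + 8) ≤ D →
        (HasFPRAS (Band D (D + h + k + 2) (D + h)) → HasFPRAS (MaxDeg k)) ∧
        (HasFPTAS (Band D (D + h + k + 2) (D + h)) → HasFPTAS (MaxDeg k))) ∧
      (∀ ε : ℝ, 0 < ε → HasFPTAS (Unbalanced ε 7) ∧ HasFPTAS (Gap ε)) ∧
      ∀ p q : ℕ, 0 < p → p < q → ∀ ε : ℝ, 0 < ε →
        (HasFPRAS (GapAt p q (-ε)) ↔ HasFPRAS fun _ => True) ∧
          (HasFPTAS (GapAt p q (-ε)) ↔ HasFPTAS fun _ => True) :=
  ⟨easy_const, fun _ _ _ hk hh hD => hard_gap hk hh hD,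
    fun _ hε => ⟨easy_unb hε, gap_fptas_of (fun _ h => ⟨7, easy_unb h⟩) hε⟩,
    fun _ _ hp hpq _ hε => gapAt_hard hp hpq hε⟩

end Pool.Agent.Results.MP_a7c826_lc.GapThreshold
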