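import Pool.Agent.Lib.SubBisF.FinF
import Pool.Agent.Lib.SubBisX.SharpP
import Pool.Agent.Lib.SubBisX.LogRange

/-!
Approximation of the logarithm of the number of independent sets of a bipartite graph.

The definitions `BGraph`, `numIndep`, `inCode`, `outVal`, `Good`, `HasFPRAS` are in
`Pool/Agent/Lib/Pa7c826/Indep.lean` and `Pool/Agent/Lib/Pa7c826/Scheme.lean`, the definitions
`LogGood` and `RScheme` in `Pool/Agent/Lib/SubBisX/LogDefs.lean`, the definitions `coverNum` and
`RSchemeG` in `Pool/Agent/Lib/SubBisC/CDefsR.lean`.
-/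

namespace Pool.Agent.Results.MP_a7c826_lc.LogarithmScheme

open Pool.Agent.Lib.Pa7c826 Pool.Agent.Lib.SubBisX Pool.Agent.Lib.SubBisC

/-- **Result.** The binary logarithm of the number of independent sets of a bipartite graph with
`n` vertices lies between `n / 2` and `n`.

1. For some constant `C` one randomised algorithm approximates the number of independent sets of
every bipartite graph up to a factor `2 ^ (C k (log log N) ^ 4 / (log N) ^ 2)`, `N = n + t + 4`, in
time polynomial in `n + t`, `n` the number of vertices and `k` the vertex cover number of the graph.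

2. The number of independent sets has an FPRAS on all bipartite graphs if and only if for every `q`
a factor `2 ^ (n / q)` is reached in time polynomial in `n` and `q`.

3. For every real `δ > 0`, a randomised polynomial time algorithm that is correct up to a factor
`2 ^ (n ^ (1 - δ))` exists if and only if the number of independent sets has an FPRAS on all
bipartite graphs. -/
theorem result :
    (∀ G : BGraph,
      ((G.a + G.b : ℕ) : ℝ) / 2 ≤ Real.logb 2 (numIndep G.graph : ℝ) ∧
        Real.logb 2 (numIndep G.graph : ℝ) ≤ ((G.a + G.b : ℕ) : ℝ)) ∧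
      (∃ C : ℝ, RSchemeG fun G t => C * coverNum G *
        (Real.logb 2 (Real.logb 2 (((G.a + G.b : ℕ) : ℝ) + t + 4))) ^ 4 /
          (Real.logb 2 (((G.a + G.b : ℕ) : ℝ) + t + 4)) ^ 2) ∧
      (HasFPRAS (fun _ => True) ↔ RScheme fun n t => (n : ℝ) / t) ∧
      ∀ δ : ℝ, 0 < δ → (HasFPRAS (fun _ => True) ↔ RScheme fun n _ => (n : ℝ) ^ (1 - δ)) :=
  ⟨logb_numIndep_range, Pool.Agent.Lib.SubBisF.FF.rschemeG_vok, fpras_iff_rscheme_div,
    fun δ hδ => fpras_iff_rscheme_rpow δ hδ⟩

end Pool.Agent.Results.MP_a7c826_lc.LogarithmScheme
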