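import Pool.Agent.Lib.SubBisK.FprasK
import Pool.Agent.Lib.SubBisK.MainK

/-!
Problem MP_a7c826_lc: approximate counting of independent sets of regular bipartite graphs with `n`
vertices and degree `d`, in a time that depends on `n / d` (and polynomially on `n`).

The definitions `BGraph`, `inCode`, `Good`, `HasFPRAS` are in `Pool/Agent/Lib/Pa7c826/Indep.lean` and
`Pool/Agent/Lib/Pa7c826/Scheme.lean`, `padCode` in `Pool/Agent/Lib/SubBisX/LogDefs.lean`,
`HasRTimeP` in `Pool/Agent/Lib/SubBisG/FinDefs.lean`, `Factor` and `expo` in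
`Pool/Agent/Lib/SubBisK/Stm.lean`.
-/

open Pool.Agent.Lib.Pa7c826 Pool.Agent.Lib.SubBisG Pool.Agent.Lib.SubBisK Finset

namespace Pool.Agent.Results.MP_a7c826_lc.RegularGraphs

/-- **Result.** For some constant `C` the number of independent sets is approximated within a factor
`1 ± 1 / t`, with probability at least `3 / 4`, in time polynomial in `n`, `t` and
`2 ^ (C y ^ (1 / 3) (log₂ (y + 1)) ^ (5 / 3))`, `y = n / d`, on all bipartite graphs with `n ≥ 1`
vertices that have a subgraph in which all vertices have degree `d ≥ 1`, in particular on all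
`d`-regular bipartite graphs. So there is an FPRAS if `y ≤ c (log n) ^ 3 / (log log n) ^ 5`. -/
theorem result :
    (∃ C : ℕ, HasRTimeP fun (G : BGraph) (s : ℕ) =>
      ∃ (d : ℕ) (H : Fin G.a → Fin G.b → Bool), 1 ≤ d ∧ 1 ≤ G.a ∧ Factor G d H ∧
        (2 : ℝ) ^ (C * expo ((G.a + G.b : ℕ) / (d : ℝ))) ≤ s) ∧
    ∀ c : ℕ, HasFPRAS fun G : BGraph =>
      ∃ (d : ℕ) (H : Fin G.a → Fin G.b → Bool), 1 ≤ d ∧ 1 ≤ G.a ∧ Factor G d H ∧
        ((G.a + G.b : ℕ) / (d : ℝ)) * Real.logb 2 (Real.logb 2 ((G.a + G.b : ℕ) + 2)) ^ 5 ≤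
          c * Real.logb 2 ((G.a + G.b : ℕ) + 2) ^ 3 := by
  obtain ⟨C, hC⟩ := hasRTimeP_K
  exact ⟨⟨C, hC⟩, fun c => fpras_of hC c⟩

end Pool.Agent.Results.MP_a7c826_lc.RegularGraphs
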