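import Pool.Agent.Lib.SubBisE.FinE

/-!
Problem MP_a7c826_lc: approximate counting of independent sets of bipartite graphs in
subexponential time.

The definitions `BGraph`, `numIndep`, `inCode`, `outVal`, `Good` are in
`Pool/Agent/Lib/Pa7c826/Indep.lean` and `Pool/Agent/Lib/Pa7c826/Scheme.lean`, the definition
`padCode` in `Pool/Agent/Lib/SubBisX/LogDefs.lean`, the definitions `coverNum` and `HasRTimeG` in
`Pool/Agent/Lib/SubBisC/CDefsR.lean`.
-/

open Pool.Agent.Lib.Pa7c826 Pool.Agent.Lib.SubBisX Pool.Agent.Lib.SubBisC Pool.Agent.Lib.SubBisE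

namespace Pool.Agent.Results.MP_a7c826_lc.SubexponentialTime

/-- **Result.** For some constant `C` the number of independent sets of every bipartite graph with
`n` vertices and vertex cover number `k` is approximated within a factor `1 ± 1 / t`, with
probability at least `3 / 4`, in time polynomial in `n`, `t` and
`2 ^ (C k ^ (1 / 3) (log₂ (k + 1)) ^ (4 / 3))`. -/
theorem result : ∃ C : ℕ, HasRTimeG fun G : BGraph =>
    (2 : ℝ) ^ (C * (coverNum G : ℝ) ^ (1 / 3 : ℝ) *
      Real.logb 2 ((coverNum G : ℝ) + 1) ^ (4 / 3 : ℝ)) := by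
  refine ⟨2 ^ 13, ?_⟩
  have h := FE.hasRTimeG_cover
  unfold expT cT at h
  simpa only [Nat.cast_pow, Nat.cast_ofNat] using h

end Pool.Agent.Results.MP_a7c826_lc.SubexponentialTime
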